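import Pool.Agent.K6.H68.TR.Powers

/-!
# Almost all tuples `n_1, …, n_k`: all numbers `π ^ y n_1 ^ x_1 ⋯ n_k ^ x_k` with exponents in `ℚ̄ + ℚ̄ π`

For all but `k N ^ (k - 1) (log₂ N + 1) ^ (k + 2)` of the `N ^ k` tuples of integers
`n_1, …, n_k ≤ N` the number `π ^ y e ^ z n_1 ^ x_1 ⋯ n_k ^ x_k` is not of the form
`e ^ γ α_1 ^ β_1 ⋯ α_s ^ β_s` with algebraic `γ`, `α_j ≠ 0`, `β_j` (in particular transcendental) for
ALL `x_i, y, z` in `ℚ̄ + ℚ̄ π` such that not all `x_i` are algebraic. More generally the exponents may be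
combinations of `1`, `π` and further numbers `t_1, …, t_r` with algebraic coefficients, with
the exponent `(r + 1) ^ 2 (r + 3) + k - 1` of the logarithm.

The proof. Let `x_0 = 1, x_1, …` be a basis of the space `V` of the exponents, `d` its dimension and
`Z = V log π`. The vectors `z` whose coordinates are linear forms in `1` and logarithms of algebraic
numbers and which satisfy `∑ x_a z_a ∈ Z` form a space of dimension at most
`d (d - 1) + d`, by the hyperplane case of the linear subgroup theorem of Waldschmidt and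
Roy (starting files, `Pool.Agent.W254.HP`). As `V` contains `π`, one of them has algebraic coordinates
outside the index `0`; hence the coordinates `z_a`, `a ≥ 1`, of all these vectors lie, together
with `1`, in a space `W` of dimension at most `1 + (d - 1) (d ^ 2 - 1)`. The tuples whose
logarithms are linearly dependent modulo `W` are counted by means of Baker's theorem.
-/

set_option autoImplicit false

namespace Pool.Agent.Results.MP_4c2ad3_nt.AlmostAllTuples

open Module

/-- The linear combinations, with algebraic coefficients, of `1` and of logarithms of algebraic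
numbers. -/
noncomputable def LogForms : Submodule (algebraicClosure ℚ ℂ) ℂ :=
  Submodule.span (algebraicClosure ℚ ℂ) ({1} ∪ {z : ℂ | IsAlgebraic ℚ (Complex.exp z)})

/-- The numbers `e ^ z` with `z` in `LogForms`, i.e. the numbers `e ^ γ α_1 ^ β_1 ⋯ α_s ^ β_s` with
algebraic `γ`, `α_j ≠ 0`, `β_j`; all nonzero algebraic numbers are of this form. -/
def Prods : Set ℂ := {x | ∃ z ∈ LogForms, Complex.exp z = x}

/-- The combinations of `1`, `π`, `t_1, …, t_r` with algebraic coefficients. -/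
noncomputable def Exps {r : ℕ} (t : Fin r → ℂ) : Submodule (algebraicClosure ℚ ℂ) ℂ :=
  Submodule.span (algebraicClosure ℚ ℂ) ({1, ((Real.pi : ℝ) : ℂ)} ∪ Set.range t)

theorem pi_cpow (y : ℂ) : ((Real.pi : ℝ) : ℂ) ^ y =
    Complex.exp (((Real.log Real.pi : ℝ) : ℂ) * y) := by
  rw [Complex.cpow_def_of_ne_zero (by exact_mod_cast Real.pi_pos.ne'),
    Complex.ofReal_log Real.pi_pos.le]

theorem bound_eq (r : ℕ) : (r + 1) * ((r + 2) * (r + 1) + (r + 2) - 1) = (r + 1) ^ 2 * (r + 3) := by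
  have h : (r + 2) * (r + 1) + (r + 2) = (r + 1) * (r + 3) + 1 := by ring
  rw [h, Nat.add_sub_cancel]
  ring

theorem result (r : ℕ) (t : Fin r → ℂ) (k N : ℕ) :
    ∃ B : Finset (Fin (k + 1) → ℕ),
      B.card ≤ (k + 1) * N ^ k * (Nat.log 2 N + 1) ^ ((r + 1) ^ 2 * (r + 3) + k) ∧
      ∀ (n : Fin (k + 1) → ℕ), (∀ i, 1 ≤ n i ∧ n i ≤ N) → n ∉ B →
        ∀ (x : Fin (k + 1) → ℂ) (y z : ℂ), (∀ i, x i ∈ Exps t) → y ∈ Exps t → z ∈ Exps t →
          (∃ i, Transcendental ℚ (x i)) →
          ((Real.pi : ℝ) : ℂ) ^ y * (∏ i, (n i : ℂ) ^ (x i)) * Complex.exp z ∉ Prods := by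
  have hfin : FiniteDimensional (algebraicClosure ℚ ℂ) (Exps t) := Pool.Agent.K6.H68.TR.Ex_finite t
  let Z : Submodule (algebraicClosure ℚ ℂ) ℂ :=
    (Exps t).map (LinearMap.mulLeft (algebraicClosure ℚ ℂ) ((Real.log Real.pi : ℝ) : ℂ))
  have hZfin : FiniteDimensional (algebraicClosure ℚ ℂ) Z := Module.Finite.map _ _
  have hZr : finrank (algebraicClosure ℚ ℂ) Z ≤ r + 2 :=
    (Submodule.finrank_map_le _ _).trans (Pool.Agent.K6.H68.TR.Ex_finrank t)
  obtain ⟨-, -, hC⟩ := Pool.Agent.K6.H68.TR.powers (Exps t)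
    (Pool.Agent.K6.H68.TR.Ex_one t) (Pool.Agent.K6.H68.TR.Ex_pi t) Z
    ((r + 1) * ((r + 2) * (r + 1) + (r + 2) - 1)) (by
      refine (Pool.Agent.K6.H68.TR.bound_mono (m := finrank (algebraicClosure ℚ ℂ) Z)
        (Pool.Agent.K6.H68.TR.Ex_finrank t)).trans ?_
      apply Nat.mul_le_mul_left
      omega)
  obtain ⟨B, hB1, hB2⟩ := hC k N
  refine ⟨B, by rwa [bound_eq] at hB1, ?_⟩
  rintro n hn hnB x y z hx hy hz ⟨i, hi⟩ ⟨w, hw, hwe⟩
  refine hi (hB2 n hn hnB x z (((Real.log Real.pi : ℝ) : ℂ) * y) hx hz ⟨y, hy, rfl⟩ ⟨w, hw, ?_⟩ i)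
  rw [hwe, Complex.exp_add, pi_cpow]
  ring

end Pool.Agent.Results.MP_4c2ad3_nt.AlmostAllTuples
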