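import Pool.Agent.K6.H30.PS.Pow

/-!
# The numbers `π ^ π ^ q`, `q` rational, and `π ^ x`, `x` a polynomial in `π ^ (1 / m)`

The number `π ^ π` is the member `q = 1` of the family `π ^ (π ^ q)`, `q ∈ ℚ`. We show that the set `Q` of
those rational `q` for which `π ^ (π ^ q)` is algebraic, or more generally of the form
`e ^ γ α_1 ^ β_1 ⋯ α_s ^ β_s` with algebraic `γ`, `α_j ≠ 0`, `β_j`, is additively very sparse:
`|B| |J| ≤ |J + B| + |B| (|B| - 1)` for all finite subsets `J` of `Q` and `B` of `ℚ`. In particular at most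
`2 (√N + 1)` of the numbers `π ^ (π ^ (q n))`, `0 ≤ n < N`, are of this form, for every rational `q ≠ 0`.

More generally let `x` be a polynomial in `π ^ (1 / m)` of degree at most `N` with algebraic coefficients,
and let `F` be a space of complex numbers of finite dimension `f` over the algebraic numbers, which
contains `1`. The exponents `x` for which `π ^ x` is of the form `e ^ x_0 α_1 ^ x_1 ⋯ α_s ^ x_s` with
exponents `x_j` in `F` (and algebraic `α_j ≠ 0`) lie in a space of dimension at most `2 f √N + C`, while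
all the polynomials form a space of dimension `N + 1`. For instance `F = ℚ̄ + ℚ̄ π`.

The proof. Let `B` be a space with basis `b_i`, `i ≤ n`, such that the products of its basis with a basis
`f_j` of `F` are linearly independent, and `W` a space contained in `F V`, `V` the space of linear forms
in `1` and logarithms of algebraic numbers. The relations `∑ b_i w_i = 0`, `w_i ∈ W`, form a space of
dimension at least `n dim W - dim (B W)`. If `w_i = ∑_j f_j v_ij`, they are linear relations between the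
`n f` numbers `b_i f_j` with coefficients `v_ij` in `V`, and there are at most `n f (n f - 1)` independent
ones by the hyperplane case of the linear subgroup theorem of Waldschmidt and Roy (starting files
`Pool.Agent.W254.HP`). So `n dim W ≤ dim (B W) + n f (n f - 1)`. Here `W` consists of numbers `x log π`,
and `B` is spanned by powers of `π ^ (1 / m)`.
-/

set_option autoImplicit false

namespace Pool.Agent.Results.MP_4c2ad3_nt.TowersOfPi

open Module
open scoped Pointwise

/-- The linear combinations, with algebraic coefficients, of `1` and of logarithms of algebraic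
numbers. -/
noncomputable def LogForms : Submodule (algebraicClosure ℚ ℂ) ℂ :=
  Submodule.span (algebraicClosure ℚ ℂ) ({1} ∪ {z : ℂ | IsAlgebraic ℚ (Complex.exp z)})

/-- The numbers `e ^ z` with `z` in `LogForms`, i.e. the numbers `e ^ γ α_1 ^ β_1 ⋯ α_s ^ β_s` with
algebraic `γ`, `α_j ≠ 0`, `β_j`; all nonzero algebraic numbers are of this form. -/
def Prods : Set ℂ := {x | ∃ z ∈ LogForms, Complex.exp z = x}

/-- The numbers `e ^ z` with `z` in the span `F * LogForms` of the products, i.e. the numbers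
`e ^ x_0 α_1 ^ x_1 ⋯ α_s ^ x_s` with algebraic `α_j ≠ 0` and exponents `x_j` in `F`. -/
def ProdsF (F : Submodule (algebraicClosure ℚ ℂ) ℂ) : Set ℂ :=
  {x | ∃ z ∈ F * LogForms, Complex.exp z = x}

theorem pi_cpow (y : ℂ) : ((Real.pi : ℝ) : ℂ) ^ y =
    Complex.exp (((Real.log Real.pi : ℝ) : ℂ) * y) := by
  rw [Complex.cpow_def_of_ne_zero (by exact_mod_cast Real.pi_pos.ne'),
    Complex.ofReal_log Real.pi_pos.le]

theorem log_pi_ne : ((Real.log Real.pi : ℝ) : ℂ) ≠ 0 := by
  have : 0 < Real.log Real.pi := Real.log_pos (by linarith [Real.pi_gt_three])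
  exact_mod_cast this.ne'

theorem mem_of_mem {x : ℂ} (h : ((Real.pi : ℝ) : ℂ) ^ x ∈ Prods) :
    ((Real.log Real.pi : ℝ) : ℂ) * x ∈ LogForms := by
  obtain ⟨w, hw, hwe⟩ := h
  rw [pi_cpow] at hwe
  exact Pool.Agent.HP778.mem_of_exp hw hwe.symm

/-- **Main result.**

(1) If `J`, `B` are finite sets of rational numbers and `π ^ (π ^ q)` is in `Prods` for all `q` in `J`,
then `|B| |J| ≤ |J + B| + |B| (|B| - 1)`.

(2) For every rational `q ≠ 0` at most `2 (√N + 1)` of the numbers `π ^ (π ^ (n q))`, `0 ≤ n < N`, are in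
`Prods`.

(3) Let `m ≥ 1` and let `F` be a space of complex numbers of finite dimension over the algebraic numbers,
containing `1`. There is `C` such that for all `N` the elements `x` of the space spanned by the powers
`π ^ (j / m)`, `0 ≤ j ≤ N`, for which `π ^ x` is in `ProdsF F` lie in a space of dimension at most
`2 dim (F) √N + C`. -/
theorem result :
    (∀ J B : Finset ℚ, (∀ q ∈ J, ((Real.pi ^ (Real.pi ^ (q : ℝ)) : ℝ) : ℂ) ∈ Prods) →
      B.card * J.card ≤ (J + B).card + B.card * (B.card - 1)) ∧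
    (∀ q : ℚ, q ≠ 0 → ∀ (N : ℕ) (S : Finset ℕ),
      (∀ n ∈ S, n < N ∧ ((Real.pi ^ (Real.pi ^ ((n * q : ℚ) : ℝ)) : ℝ) : ℂ) ∈ Prods) →
      (S.card : ℝ) ≤ 2 * (Real.sqrt N + 1)) ∧
    (∀ m : ℕ, 1 ≤ m → ∀ F : Submodule (algebraicClosure ℚ ℂ) ℂ,
      Module.Finite (algebraicClosure ℚ ℂ) F → (1 : ℂ) ∈ F → ∃ C : ℕ, ∀ N : ℕ,
      ∃ W : Submodule (algebraicClosure ℚ ℂ) ℂ, Module.Finite (algebraicClosure ℚ ℂ) W ∧
        (finrank (algebraicClosure ℚ ℂ) W : ℝ) ≤
          2 * finrank (algebraicClosure ℚ ℂ) F * Real.sqrt N + C ∧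
        ∀ x ∈ Submodule.span (algebraicClosure ℚ ℂ)
          {z : ℂ | ∃ j ≤ N, z = ((Real.pi ^ ((j : ℝ) / m) : ℝ) : ℂ)},
          ((Real.pi : ℝ) : ℂ) ^ x ∈ ProdsF F → x ∈ W) := by
  have hcast : ∀ x : ℝ, ((Real.pi ^ x : ℝ) : ℂ) = ((Real.pi : ℝ) : ℂ) ^ (x : ℂ) := fun x =>
    Complex.ofReal_cpow Real.pi_pos.le x
  refine ⟨?_, ?_, ?_⟩
  · intro J B h
    refine Pool.Agent.K6.H30.PS.sumset_rpow Real.pi_pos
      Pool.Agent.H340R2.LW.transcendental_pi log_pi_ne J B fun q hq => ?_
    refine mem_of_mem ?_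
    rw [← hcast]
    exact h q hq
  · intro q hq N S hS
    refine Pool.Agent.K6.H30.PS.box_rpow Real.pi_pos
      Pool.Agent.H340R2.LW.transcendental_pi log_pi_ne hq N S (fun n hn => (hS n hn).1)
      fun n hn => ?_
    refine mem_of_mem ?_
    rw [← hcast]
    exact (hS n hn).2
  · intro m hm F hF h1F
    have hmR : (m : ℝ) ≠ 0 := by exact_mod_cast (by omega : m ≠ 0)
    set t : ℝ := Real.pi ^ ((m : ℝ)⁻¹) with ht
    have htm : t ^ m = Real.pi := by
      rw [ht, ← Real.rpow_natCast, ← Real.rpow_mul Real.pi_pos.le, inv_mul_cancel₀ hmR,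
        Real.rpow_one]
    have htr : Transcendental ℚ t := by
      intro h
      exact Pool.Agent.H340R2.LW.transcendental_pi (htm ▸ h.pow m)
    obtain ⟨C, hC⟩ := Pool.Agent.K6.H30.PS.mult_bound Pool.Agent.HP778.hyper_Lt
      (Pool.Agent.HP778.ofReal_transcendental htr) F
    refine ⟨C, fun N => ?_⟩
    have hset : {z : ℂ | ∃ j ≤ N, z = ((Real.pi ^ ((j : ℝ) / m) : ℝ) : ℂ)} =
        {z : ℂ | ∃ j ≤ N, z = (t : ℂ) ^ j} := by
      ext z
      constructor
      · rintro ⟨j, hj, rfl⟩
        refine ⟨j, hj, ?_⟩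
        rw [← Complex.ofReal_pow, ht, ← Real.rpow_natCast, ← Real.rpow_mul Real.pi_pos.le]
        congr 2
        field_simp
      · rintro ⟨j, hj, rfl⟩
        refine ⟨j, hj, ?_⟩
        rw [← Complex.ofReal_pow, ht, ← Real.rpow_natCast, ← Real.rpow_mul Real.pi_pos.le]
        congr 2
        field_simp
    have hfd : FiniteDimensional (algebraicClosure ℚ ℂ)
        (Pool.Agent.K6.H30.PS.polys (t : ℂ) N) := by
      have := Submodule.finiteDimensional_of_le (Pool.Agent.K6.H30.PS.polys_le (t : ℂ) N)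
      exact this
    refine ⟨Pool.Agent.K6.H30.PS.mulIn (Pool.Agent.K6.H30.PS.polys (t : ℂ) N) (F * LogForms)
      ((Real.log Real.pi : ℝ) : ℂ), inferInstance, hC _ log_pi_ne N, ?_⟩
    rintro x hx ⟨w, hw, hwe⟩
    rw [hset] at hx
    refine ⟨hx, ?_⟩
    change ((Real.log Real.pi : ℝ) : ℂ) * x ∈ F * LogForms
    rw [pi_cpow] at hwe
    exact Pool.Agent.K6.H30.PS.mem_of_expF h1F hw hwe.symm

end Pool.Agent.Results.MP_4c2ad3_nt.TowersOfPi
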